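import Pool.Agent.Q98.EL.Inst
import Pool.Agent.Q98.EL.Plane2

set_option autoImplicit false

open Pool.Agent.H266R3.LF MeasureTheory

open scoped ENNReal

namespace Pool.Agent.Results.MP_32ff52_an.OnlyEllOne

/-- The `Isom(X)`-equivariant dual lifting property: there is a bounded linear projection `P` of
`Lip_0(X)` onto `X*` with `P (f ∘ g) = (P f) ∘ g` for all surjective linear isometries `g`
of `X`. -/
def HasEquivariantDualLifting (X : Type) [NormedAddCommGroup X] [NormedSpace ℝ X] : Prop :=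
  ∃ P : Lip0 X (0 : X) →L[ℝ] StrongDual ℝ X,
    (∀ (φ : StrongDual ℝ X) (f : Lip0 X (0 : X)), (∀ x, f.fn x = φ x) → P f = φ) ∧
    ∀ (g : X ≃ₗᵢ[ℝ] X) (f f' : Lip0 X (0 : X)), (∀ x, f'.fn x = f.fn (g x)) →
      ∀ x, P f' x = P f (g x)

/-- **Theorem.** Among the spaces `ℓ_p` and `L_p[0,1]`, `1 ≤ p < ∞`, only `ℓ_1` has the
equivariant dual lifting property for the group of its surjective linear isometries. -/
theorem result (p : ℝ≥0∞) [hp1 : Fact (1 ≤ p)] (hp : p ≠ ∞) :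
    (HasEquivariantDualLifting (lp (fun _ : ℕ => ℝ) p) ↔ p = 1) ∧
      ¬ HasEquivariantDualLifting (Lp ℝ p (volume.restrict (Set.Icc (0 : ℝ) 1))) := by
  rcases hp1.out.eq_or_lt with h | h
  · subst h
    exact ⟨⟨fun _ => rfl, fun _ => Q98.EL.hasEDL_one⟩, Q98.EL.not_hasEDL_L1⟩
  · exact ⟨⟨fun h1 => absurd h1 (Q98.EL.not_hasEDL_seq h hp), fun h1 => absurd h1 h.ne'⟩,
      Q98.EL.not_hasEDL_fun h hp⟩

end Pool.Agent.Results.MP_32ff52_an.OnlyEllOne
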